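import Pool.Agent.Y194.UF.Ser

/-!
# Power series over the group ring: the number of the characters with a large order of vanishing
-/

set_option autoImplicit false

open PowerSeries

namespace Pool.Agent.Y194.UF

open Finset Module
open Pool.Agent.Y194.UP

section chars
variable {G : Type*} [CommGroup G] [Finite G]

/-- characters with values in `ℂ` and in `ℂˣ` -/
noncomputable def charEquiv (G : Type*) [CommGroup G] : (G →* ℂ) ≃ (G →* ℂˣ) where
  toFun f := f.toHomUnits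
  invFun f := (Units.coeHom ℂ).comp f
  left_inv f := by ext x; rfl
  right_inv f := by ext x; rfl

lemma card_chars : Nat.card (G →* ℂ) = Nat.card G := by
  rw [← CommGroup.card_monoidHom_of_hasEnoughRootsOfUnity G ℂ]
  exact Nat.card_congr (charEquiv G)

instance finite_chars : Finite (G →* ℂ) := by
  have h : Nat.card (G →* ℂ) ≠ 0 := by
    rw [card_chars]
    exact Nat.card_pos.ne'
  exact Nat.finite_of_card_ne_zero h

lemma finI_int {l : ℕ} (hl : l.Prime) :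
    FinI ℤ l ∧ ix (Ideal.span {(l : ℤ)}) ≠ 1 := by
  refine ⟨finI hl.ne_zero, ?_⟩
  have h1 := ix_nat (R := ℤ) l
  rw [h1, Module.finrank_self, pow_one]
  exact hl.ne_one

/-- the element of the group ring which belongs to the Taylor coefficient of index `ρ` -/
theorem exists_x {l : ℕ} (hl : l.Prime) {Q : ℕ} (hQ : ¬ l ∣ Q)
    (Θ : PowerSeries (MonoidAlgebra ℤ G)) (Pol : (G →* ℂ) → Polynomial ℂ)
    (hPol : ∀ χ, (Pol χ : PowerSeries ℂ) =
      PowerSeries.map (evA χ : MonoidAlgebra ℤ G →ₐ[ℤ] ℂ).toRingHom Θ)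
    (hne : ∀ χ, Pol χ ≠ 0)
    (P1 : Polynomial ℤ) (h1 : (P1 : PowerSeries ℤ) =
      PowerSeries.map (augA ℤ G : MonoidAlgebra ℤ G →ₐ[ℤ] ℤ).toRingHom Θ)
    (ρ : ℕ) (U : Polynomial ℤ)
    (hU : P1 = (1 - Polynomial.C (Q : ℤ) * Polynomial.X) ^ ρ * U) (hc : nv U Q ≠ 0) :
    ∃ x : MonoidAlgebra ℤ G,
      (∀ χ : G →* ℂ, ¬ (Pol χ).rootMultiplicity ((Q : ℂ)⁻¹) ≤ ρ → evA χ x = 0) ∧
      augA ℤ G x ≠ 0 ∧ padicValInt l (augA ℤ G x) = padicValInt l (nv U Q) := by
  classical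
  have hfin : Fintype (G →* ℂ) := Fintype.ofFinite _
  have hlp : Fact l.Prime := ⟨hl⟩
  have hQ0 : Q ≠ 0 := by
    rintro rfl
    exact hQ (dvd_zero _)
  have hQC : (Q : ℂ) ≠ 0 := by exact_mod_cast hQ0
  have hQQ : (Q : ℚ) ≠ 0 := by exact_mod_cast hQ0
  set B : ℕ := (∑ χ, (Pol χ).natDegree) + P1.natDegree + U.natDegree + ρ with hB
  have hB1 : ∀ χ, (Pol χ).natDegree ≤ B := fun χ => by
    have := Finset.single_le_sum (f := fun χ => (Pol χ).natDegree)
      (fun _ _ => Nat.zero_le _) (Finset.mem_univ χ)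
    omega
  set x : MonoidAlgebra ℤ G := ∑ n ∈ Finset.range (B + 1),
    ((n.choose ρ * Q ^ (B - n) : ℕ) : MonoidAlgebra ℤ G) * coeff n Θ with hx
  have hev : ∀ χ : G →* ℂ, evA χ x =
      (Q : ℂ) ^ (B - ρ) * (Polynomial.taylor ((Q : ℂ)⁻¹) (Pol χ)).coeff ρ := by
    intro χ
    rw [← sum_eq (Pol χ) hQC (hB1 χ) (by omega), hx, map_sum]
    refine Finset.sum_congr rfl fun n _ => ?_
    rw [map_mul, map_natCast]
    congr 1
    have h2 := congrArg (coeff n) (hPol χ)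
    rw [Polynomial.coeff_coe, coeff_map] at h2
    exact h2.symm
  have haug : augA ℤ G x = ∑ n ∈ Finset.range (B + 1),
      ((n.choose ρ * Q ^ (B - n) : ℕ) : ℤ) * P1.coeff n := by
    rw [hx, map_sum]
    refine Finset.sum_congr rfl fun n _ => ?_
    rw [map_mul, map_natCast]
    congr 1
    have h2 := congrArg (coeff n) h1
    rw [Polynomial.coeff_coe, coeff_map] at h2
    exact h2.symm
  -- the augmentation
  have haugQ : ((augA ℤ G x : ℤ) : ℚ) * (Q : ℚ) ^ U.natDegree =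
      (-1) ^ ρ * (Q : ℚ) ^ B * (nv U Q : ℚ) := by
    have h2 : ((augA ℤ G x : ℤ) : ℚ) = (Q : ℚ) ^ (B - ρ) *
        (Polynomial.taylor ((Q : ℚ)⁻¹) (P1.map (Int.castRingHom ℚ))).coeff ρ := by
      rw [← sum_eq (P1.map (Int.castRingHom ℚ)) hQQ
        ((Polynomial.natDegree_map_le).trans (by omega)) (by omega), haug]
      push_cast
      refine Finset.sum_congr rfl fun n _ => ?_
      rw [Polynomial.coeff_map, eq_intCast]
    have h3 : Polynomial.taylor ((Q : ℚ)⁻¹) (P1.map (Int.castRingHom ℚ)) =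
        Polynomial.C ((-(Q : ℚ)) ^ ρ) * (Polynomial.taylor ((Q : ℚ)⁻¹)
          (U.map (Int.castRingHom ℚ))) * Polynomial.X ^ ρ := by
      rw [hU, Polynomial.map_mul, Polynomial.map_pow, Polynomial.map_sub, Polynomial.map_one,
        Polynomial.map_mul, Polynomial.map_C, Polynomial.map_X, Polynomial.taylor_mul,
        Polynomial.taylor_pow, map_sub, Polynomial.taylor_one, Polynomial.taylor_mul,
        Polynomial.taylor_C, Polynomial.taylor_X, Polynomial.C_1]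
      have h4 : (1 : Polynomial ℚ) - Polynomial.C ((Int.castRingHom ℚ) (Q : ℤ)) *
          (Polynomial.X + Polynomial.C ((Q : ℚ)⁻¹)) =
          Polynomial.C (-(Q : ℚ)) * Polynomial.X := by
        have h5 : Polynomial.C ((Int.castRingHom ℚ) (Q : ℤ)) * Polynomial.C ((Q : ℚ)⁻¹) =
            (1 : Polynomial ℚ) := by
          rw [← Polynomial.C_mul, eq_intCast, Int.cast_natCast, mul_inv_cancel₀ hQQ,
            Polynomial.C_1]
        rw [eq_intCast, Int.cast_natCast] at h5 ⊢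
        rw [Polynomial.C_neg]
        linear_combination -h5
      rw [h4, mul_pow, ← Polynomial.C_pow]
      ring
    rw [h3, Polynomial.coeff_mul_X_pow', if_pos le_rfl, Nat.sub_self, Polynomial.coeff_C_mul,
      Polynomial.taylor_coeff_zero] at h2
    rw [cast_nv U hQQ, h2]
    have h6 : (Q : ℚ) ^ B = (Q : ℚ) ^ (B - ρ) * (Q : ℚ) ^ ρ := by
      rw [← pow_add]
      congr 1
      omega
    rw [h6, neg_pow]
    ring
  have haugZ : augA ℤ G x * (Q : ℤ) ^ U.natDegree = (-1) ^ ρ * (Q : ℤ) ^ B * nv U Q := by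
    exact_mod_cast haugQ
  have hQl : ∀ m : ℕ, padicValInt l ((Q : ℤ) ^ m) = 0 := by
    intro m
    unfold padicValInt
    rw [Int.natAbs_pow, Int.natAbs_natCast]
    rw [padicValNat.pow, padicValNat.eq_zero_of_not_dvd hQ, mul_zero]
  have hQi : ∀ m : ℕ, ((Q : ℤ) ^ m) ≠ 0 := fun m => pow_ne_zero _ (by exact_mod_cast hQ0)
  have haug0 : augA ℤ G x ≠ 0 := by
    intro h
    rw [h, zero_mul] at haugZ
    have h2 : (-1 : ℤ) ^ ρ * (Q : ℤ) ^ B * nv U Q ≠ 0 :=
      mul_ne_zero (mul_ne_zero (pow_ne_zero _ (by norm_num)) (hQi B)) hc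
    exact h2 haugZ.symm
  have hval : padicValInt l (augA ℤ G x) = padicValInt l (nv U Q) := by
    have h2 := congrArg (padicValInt l) haugZ
    rw [padicValInt.mul haug0 (hQi _), hQl, add_zero,
      padicValInt.mul (mul_ne_zero (pow_ne_zero _ (by norm_num)) (hQi B)) hc,
      padicValInt.mul (pow_ne_zero _ (by norm_num)) (hQi B), hQl, add_zero] at h2
    have h3 : padicValInt l ((-1 : ℤ) ^ ρ) = 0 := by
      unfold padicValInt
      rw [Int.natAbs_pow]
      simp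
    rw [h2, h3, zero_add]
  exact ⟨x, fun χ hχ => by
    rw [hev χ, taylor_zero_of_mult (Pol χ) (hne χ) _ (not_le.1 hχ), mul_zero], haug0, hval⟩

theorem count {l : ℕ} (hl : l.Prime) (hG : IsPGroup l G) {Q : ℕ} (hQ : ¬ l ∣ Q)
    (Θ : PowerSeries (MonoidAlgebra ℤ G)) (Pol : (G →* ℂ) → Polynomial ℂ)
    (hPol : ∀ χ, (Pol χ : PowerSeries ℂ) =
      PowerSeries.map (evA χ : MonoidAlgebra ℤ G →ₐ[ℤ] ℂ).toRingHom Θ)
    (hne : ∀ χ, Pol χ ≠ 0)
    (P1 : Polynomial ℤ) (h1 : (P1 : PowerSeries ℤ) =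
      PowerSeries.map (augA ℤ G : MonoidAlgebra ℤ G →ₐ[ℤ] ℤ).toRingHom Θ)
    (ρ : ℕ) (U : Polynomial ℤ)
    (hU : P1 = (1 - Polynomial.C (Q : ℤ) * Polynomial.X) ^ ρ * U) (hc : nv U Q ≠ 0) :
    Nat.card G ≤ l ^ padicValInt l (nv U Q) *
      Nat.card {χ : G →* ℂ // (Pol χ).rootMultiplicity ((Q : ℂ)⁻¹) ≤ ρ} := by
  classical
  have hfin : Fintype (G →* ℂ) := Fintype.ofFinite _
  obtain ⟨x, hx, haug0, hval⟩ := exists_x hl hQ Θ Pol hPol hne P1 h1 ρ U hU hc
  obtain ⟨hF, hl1⟩ := finI_int hl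
  set Z : Finset (G →* ℂ) := Finset.univ.filter
    (fun χ => ¬ (Pol χ).rootMultiplicity ((Q : ℂ)⁻¹) ≤ ρ) with hZ
  have hmain := zeros_leA (A := ℤ) hl hF hl1 hG x (c := (augA ℤ G x).natAbs)
    (Int.natAbs_ne_zero.2 haug0) (d := (augA ℤ G x).sign)
    (Int.sign_mul_self_eq_natAbs _).symm Z (by
    intro χ hχ
    rw [hZ, Finset.mem_filter] at hχ
    exact hx χ hχ.2)
  have h2 := many hl.one_lt hmain
  have h3 : Nat.card {χ : G →* ℂ // (Pol χ).rootMultiplicity ((Q : ℂ)⁻¹) ≤ ρ} =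
      Nat.card G - Z.card := by
    rw [Nat.card_eq_fintype_card, Fintype.card_subtype]
    have h4 := Finset.card_filter_add_card_filter_not (s := (Finset.univ : Finset (G →* ℂ)))
      (fun χ => (Pol χ).rootMultiplicity ((Q : ℂ)⁻¹) ≤ ρ)
    have h5 : (Finset.univ : Finset (G →* ℂ)).card = Nat.card G := by
      rw [← card_chars, Nat.card_eq_fintype_card, Finset.card_univ]
    rw [← hZ] at h4
    omega
  rw [h3]
  have h4 : padicValNat l (augA ℤ G x).natAbs = padicValInt l (nv U Q) := hval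
  rw [← h4]
  exact h2

/-- the polynomial of an element of the group ring of a cyclic group -/
lemma exists_poly (γ : G) (hγ : ∀ g : G, g ∈ Subgroup.zpowers γ) (x : MonoidAlgebra ℤ G) :
    ∃ f : Polynomial ℤ, Polynomial.aeval (MonoidAlgebra.of ℤ G γ) f = x := by
  induction x using MonoidAlgebra.induction_linear with
  | zero => exact ⟨0, map_zero _⟩
  | add f g hf hg =>
    obtain ⟨a, ha⟩ := hf
    obtain ⟨b, hb⟩ := hg
    exact ⟨a + b, by rw [map_add, ha, hb]⟩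
  | single a b =>
    obtain ⟨j, hj⟩ := (mem_powers_iff_mem_zpowers (x := γ) (y := a)).2 (hγ a)
    refine ⟨Polynomial.C b * Polynomial.X ^ j, ?_⟩
    have hj' : γ ^ j = a := hj
    rw [map_mul, map_pow, Polynomial.aeval_X, Polynomial.aeval_C, ← map_pow, hj',
      MonoidAlgebra.of_apply, ← Algebra.smul_def, MonoidAlgebra.smul_single, smul_eq_mul, mul_one]

lemma cyc_prod_dvd {l : ℕ} (hl : l.Prime) (I : Finset ℕ) (f : Polynomial ℤ)
    (hf : ∀ i ∈ I, Polynomial.cyclotomic (l ^ i) ℤ ∣ f) :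
    ∏ i ∈ I, Polynomial.cyclotomic (l ^ i) ℤ ∣ f := by
  have hm : (∏ i ∈ I, Polynomial.cyclotomic (l ^ i) ℤ).Monic :=
    Polynomial.monic_prod_of_monic _ _ fun i _ => Polynomial.cyclotomic.monic _ _
  rw [← Polynomial.map_dvd_map (Int.castRingHom ℚ) (RingHom.injective_int _) hm,
    Polynomial.map_prod]
  apply Finset.prod_dvd_of_coprime
  · intro i _ j _ hij
    rw [Function.onFun, Polynomial.map_cyclotomic, Polynomial.map_cyclotomic]
    exact Polynomial.cyclotomic.isCoprime_rat fun h => hij (Nat.pow_right_injective hl.two_le h)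
  · intro i hi
    exact Polynomial.map_dvd _ (hf i hi)

/-- **layers**: cyclic groups -/
theorem layers {l : ℕ} (hl : l.Prime) (hG : IsCyclic G) {Q : ℕ} (hQ : ¬ l ∣ Q)
    (Θ : PowerSeries (MonoidAlgebra ℤ G)) (Pol : (G →* ℂ) → Polynomial ℂ)
    (hPol : ∀ χ, (Pol χ : PowerSeries ℂ) =
      PowerSeries.map (evA χ : MonoidAlgebra ℤ G →ₐ[ℤ] ℂ).toRingHom Θ)
    (hne : ∀ χ, Pol χ ≠ 0)
    (P1 : Polynomial ℤ) (h1 : (P1 : PowerSeries ℤ) =
      PowerSeries.map (augA ℤ G : MonoidAlgebra ℤ G →ₐ[ℤ] ℤ).toRingHom Θ)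
    (ρ : ℕ) (U : Polynomial ℤ)
    (hU : P1 = (1 - Polynomial.C (Q : ℤ) * Polynomial.X) ^ ρ * U) (hc : nv U Q ≠ 0)
    (I : Finset ℕ) (hI : ∀ i ∈ I, 1 ≤ i ∧ ∃ χ : G →* ℂ, orderOf χ = l ^ i ∧
      ¬ (Pol χ).rootMultiplicity ((Q : ℂ)⁻¹) ≤ ρ) :
    I.card ≤ padicValInt l (nv U Q) := by
  classical
  have hlp : Fact l.Prime := ⟨hl⟩
  obtain ⟨x, hx, haug0, hval⟩ := exists_x hl hQ Θ Pol hPol hne P1 h1 ρ U hU hc
  obtain ⟨γ, hγ⟩ := hG.exists_generator
  obtain ⟨f, hf⟩ := exists_poly γ hγ x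
  have hfev : ∀ χ : G →* ℂ, evA χ x = Polynomial.aeval (χ γ) f := by
    intro χ
    rw [← hf, ← Polynomial.aeval_algHom_apply (evA χ : MonoidAlgebra ℤ G →ₐ[ℤ] ℂ),
      MonoidAlgebra.of_apply, evA_single, map_one, one_mul]
  have hfaug : augA ℤ G x = f.eval 1 := by
    rw [← hf, ← Polynomial.aeval_algHom_apply (augA ℤ G : MonoidAlgebra ℤ G →ₐ[ℤ] ℤ),
      MonoidAlgebra.of_apply, augA_single, Polynomial.coe_aeval_eq_eval]
  have hord : ∀ χ : G →* ℂ, orderOf χ = orderOf (χ γ) := by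
    intro χ
    apply orderOf_eq_orderOf_iff.2
    intro m
    constructor
    · intro h
      have h2 := DFunLike.congr_fun h γ
      simpa using h2
    · intro h
      ext g
      obtain ⟨j, hj⟩ := (mem_powers_iff_mem_zpowers (x := γ) (y := g)).2 (hγ g)
      have hj' : γ ^ j = g := hj
      rw [← hj', MonoidHom.pow_apply, map_pow, ← pow_mul, mul_comm, pow_mul, h, one_pow,
        MonoidHom.one_apply]
  have hdvd : ∏ i ∈ I, Polynomial.cyclotomic (l ^ i) ℤ ∣ f := by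
    apply cyc_prod_dvd hl
    intro i hi
    obtain ⟨-, χ, hχ, hχ'⟩ := hI i hi
    have h2 := hx χ hχ'
    rw [hfev] at h2
    have h3 : IsPrimitiveRoot (χ γ) (l ^ i) := by
      rw [← hχ, hord]
      exact IsPrimitiveRoot.orderOf _
    have hpos : 0 < l ^ i := pow_pos hl.pos i
    rw [Polynomial.cyclotomic_eq_minpoly h3 hpos]
    exact minpoly.isIntegrallyClosed_dvd (h3.isIntegral hpos) h2
  have h4 : (l : ℤ) ^ I.card ∣ f.eval 1 := by
    obtain ⟨g, hg⟩ := hdvd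
    rw [hg, Polynomial.eval_mul, Polynomial.eval_prod]
    refine Dvd.dvd.mul_right (dvd_of_eq ?_) _
    rw [← Finset.prod_const]
    refine Finset.prod_congr rfl fun i hi => ?_
    obtain ⟨k, hk⟩ : ∃ k, i = k + 1 := ⟨i - 1, by have := (hI i hi).1; omega⟩
    rw [hk, Polynomial.eval_one_cyclotomic_prime_pow]
  rw [← hval, hfaug]
  rw [hfaug] at haug0
  exact (padicValInt_dvd_iff _ _).1 h4 |>.resolve_left haug0

end chars

end Pool.Agent.Y194.UF
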