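import Pool.Agent.Y194.UF.Gen
import Pool.Agent.W343.BSD.Main

/-!
# Elliptic curves `y ^ 2 = x ^ 3 + a x + b` over function fields
-/

set_option autoImplicit false

open PowerSeries

namespace Pool.Agent.Y194.UF

open Finset
open Pool.Agent.Y194.UP
open Pool.Agent.W343.BSD

section ell
variable {k K : Type} [Field k] [Field K] [Algebra k K]

open Classical in
/-- the Euler factor `1 - a_v X + q_v X ^ 2` or `1 - a_v X` -/
noncomputable def ellP (a b : K) (v : FF.Place k K) : Polynomial ℤ :=
  1 - Polynomial.C (trace v a b) * Polynomial.X +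
    if v.red (minDisc v a b) ≠ 0 then
      Polynomial.C (Nat.card v.RF : ℤ) * Polynomial.X ^ 2 else 0

open Classical in
/-- the number of the points of the smooth part of the reduction of a minimal model:
`q_v + 1 - a_v` for good reduction, `q_v - a_v` for bad reduction -/
noncomputable def pts (a b : K) (v : FF.Place k K) : ℤ :=
  (Nat.card v.RF : ℤ) - trace v a b + if v.red (minDisc v a b) ≠ 0 then 1 else 0

lemma ellP_zero (a b : K) (v : FF.Place k K) : (ellP a b v).coeff 0 = 1 := by
  unfold ellP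
  split_ifs <;> simp

lemma tw_ellP (a b : K) (v : FF.Place k K) :
    tw (ellP a b v) (1 : ℤ) v.deg = locFactor v a b := by
  classical
  rw [tw_one_eq]
  unfold ellP locFactor
  rw [map_add, map_sub, map_one, map_mul, Polynomial.expand_C, Polynomial.expand_X]
  congr 1
  split_ifs
  · rw [map_mul, map_pow, Polynomial.expand_C, Polynomial.expand_X, ← pow_mul, mul_comm 2]
  · rw [map_zero]

lemma lfun_eq (a b : K) :
    Lfun k a b = Lser (fun v : FF.Place k K => v.deg) (ellP a b) (fun _ => (1 : ℤ)) := by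
  unfold Lfun Lser fac
  congr 1
  funext v
  rw [tw_ellP]

lemma natDegree_ellP_le (a b : K) (v : FF.Place k K) : (ellP a b v).natDegree ≤ 2 := by
  classical
  unfold ellP
  have h1 : (1 - Polynomial.C (trace v a b) * Polynomial.X : Polynomial ℤ).natDegree ≤ 2 := by
    refine (Polynomial.natDegree_sub_le _ _).trans (max_le ?_ ?_)
    · rw [Polynomial.natDegree_one]
      exact Nat.zero_le _
    · exact (Polynomial.natDegree_C_mul_le _ _).trans (by
        rw [Polynomial.natDegree_X]
        norm_num)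
  refine (Polynomial.natDegree_add_le _ _).trans (max_le h1 ?_)
  split_ifs
  · exact Polynomial.natDegree_C_mul_X_pow_le _ _
  · rw [Polynomial.natDegree_zero]
    exact Nat.zero_le _

lemma nv_ellP (a b : K) (v : FF.Place k K) (hq : Nat.card v.RF ≠ 0) :
    nv (ellP a b v) (Nat.card v.RF) * (Nat.card v.RF : ℤ) ^ (2 - (ellP a b v).natDegree) =
      (Nat.card v.RF : ℤ) * pts a b v := by
  classical
  have hQ : ((Nat.card v.RF : ℕ) : ℚ) ≠ 0 := by exact_mod_cast hq
  have h : (nv (ellP a b v) (Nat.card v.RF) : ℚ) *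
      (Nat.card v.RF : ℚ) ^ (2 - (ellP a b v).natDegree) =
      (Nat.card v.RF : ℚ) * pts a b v := by
    rw [cast_nv _ hQ]
    have h1 : (Nat.card v.RF : ℚ) ^ (ellP a b v).natDegree *
        ((ellP a b v).map (Int.castRingHom ℚ)).eval ((Nat.card v.RF : ℚ)⁻¹) *
        (Nat.card v.RF : ℚ) ^ (2 - (ellP a b v).natDegree) =
        (Nat.card v.RF : ℚ) ^ 2 *
        ((ellP a b v).map (Int.castRingHom ℚ)).eval ((Nat.card v.RF : ℚ)⁻¹) := by
      have h2 : (Nat.card v.RF : ℚ) ^ 2 = (Nat.card v.RF : ℚ) ^ (ellP a b v).natDegree *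
          (Nat.card v.RF : ℚ) ^ (2 - (ellP a b v).natDegree) := by
        rw [← pow_add]
        congr 1
        have := natDegree_ellP_le a b v
        omega
      rw [h2]
      ring
    rw [h1]
    unfold ellP pts
    by_cases h3 : v.red (minDisc v a b) ≠ 0
    · rw [if_pos h3, if_pos h3]
      simp only [Polynomial.map_add, Polynomial.map_sub, Polynomial.map_one, Polynomial.map_mul,
        Polynomial.map_pow, Polynomial.map_C, Polynomial.map_X, Polynomial.eval_add,
        Polynomial.eval_sub, Polynomial.eval_one, Polynomial.eval_mul, Polynomial.eval_pow,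
        Polynomial.eval_C, Polynomial.eval_X]
      rw [eq_intCast, eq_intCast]
      push_cast
      field_simp
    · rw [if_neg h3, if_neg h3]
      simp only [Polynomial.map_sub, Polynomial.map_one, Polynomial.map_mul, add_zero,
        Polynomial.map_C, Polynomial.map_X, Polynomial.eval_sub, Polynomial.eval_one,
        Polynomial.eval_mul, Polynomial.eval_C, Polynomial.eval_X]
      rw [eq_intCast]
      push_cast
      field_simp
  exact_mod_cast h

/-- the singular point of a singular cubic -/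
lemma exists_root {F : Type*} [Field F] (h2 : (2 : F) ≠ 0) (h3 : (3 : F) ≠ 0) {A B : F}
    (h : 4 * A ^ 3 + 27 * B ^ 2 = 0) : ∃ x : F, x ^ 3 + A * x + B = 0 := by
  by_cases hA : A = 0
  · subst hA
    have h27 : (27 : F) ≠ 0 := by
      have : (27 : F) = 3 ^ 3 := by norm_num
      rw [this]
      exact pow_ne_zero _ h3
    have hB : B = 0 := by
      have h4 : (27 : F) * B ^ 2 = 0 := by linear_combination h
      exact pow_eq_zero_iff (two_ne_zero) |>.1 ((mul_eq_zero.1 h4).resolve_left h27)
    exact ⟨0, by rw [hB]; ring⟩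
  · refine ⟨-(3 * B) / (2 * A), ?_⟩
    field_simp
    linear_combination -B * h

end ell

section fin
variable {k K : Type} [Field k] [Finite k] [Field K] [Algebra k K] [FF.IsFF k K]

lemma card_RF (v : FF.Place k K) : Nat.card v.RF = Nat.card k ^ v.deg :=
  Module.natCard_eq_pow_finrank (K := k) (V := v.RF)

lemma card_RF_pos (v : FF.Place k K) : Nat.card v.RF ≠ 0 := by
  rw [card_RF]
  exact pow_ne_zero _ Nat.card_pos.ne'

lemma pts_pos (h6 : (6 : k) ≠ 0) {a b : K} (hab : a ≠ 0 ∨ b ≠ 0) (v : FF.Place k K) :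
    0 < pts a b v := by
  classical
  unfold pts trace
  by_cases h3 : v.red (minDisc v a b) ≠ 0
  · rw [if_pos h3, sub_sub_cancel]
    positivity
  · rw [if_neg h3, sub_sub_cancel, add_zero]
    push Not at h3
    have h2' : (2 : v.RF) ≠ 0 := by
      have := ne_RF v (two_ne h6)
      exact_mod_cast this
    have h3' : (3 : v.RF) ≠ 0 := by
      have := ne_RF v (three_ne h6)
      exact_mod_cast this
    unfold minDisc at h3
    rw [red_disc (reg_minA v hab) (reg_minB v hab)] at h3
    obtain ⟨x, hx⟩ := exists_root h2' h3' h3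
    have : Nonempty {P : v.RF × v.RF // P.2 ^ 2 = P.1 ^ 3 + v.red (minA v a b) * P.1 +
        v.red (minB v a b)} := ⟨⟨(x, 0), by
      show (0 : v.RF) ^ 2 = _
      rw [hx]
      ring⟩⟩
    exact_mod_cast Nat.card_pos

lemma val_nv (h6 : (6 : k) ≠ 0) {a b : K} (hab : a ≠ 0 ∨ b ≠ 0) (v : FF.Place k K) {l : ℕ}
    (hl : l.Prime) (hlk : ¬ l ∣ Nat.card k) :
    nv (ellP a b v) (Nat.card k ^ v.deg) ≠ 0 ∧
      padicValInt l (nv (ellP a b v) (Nat.card k ^ v.deg)) = padicValInt l (pts a b v) := by
  have hlp : Fact l.Prime := ⟨hl⟩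
  rw [← card_RF v]
  have hc := card_RF_pos v
  have h1 := nv_ellP a b v hc
  have hq : ((Nat.card v.RF : ℕ) : ℤ) ≠ 0 := by exact_mod_cast hc
  have hp := (pts_pos h6 hab v).ne'
  have h0 : nv (ellP a b v) (Nat.card v.RF) ≠ 0 := by
    intro h
    rw [h, zero_mul] at h1
    exact (mul_ne_zero hq hp) h1.symm
  refine ⟨h0, ?_⟩
  have hlv : ¬ l ∣ Nat.card v.RF := by
    rw [card_RF]
    exact fun h => hlk (hl.dvd_of_dvd_pow h)
  have hvq : ∀ m : ℕ, padicValInt l (((Nat.card v.RF : ℕ) : ℤ) ^ m) = 0 := by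
    intro m
    unfold padicValInt
    rw [Int.natAbs_pow, Int.natAbs_natCast, padicValNat.pow, padicValNat.eq_zero_of_not_dvd hlv,
      mul_zero]
  have h2 := congrArg (padicValInt l) h1
  rw [padicValInt.mul h0 (pow_ne_zero _ hq), hvq, add_zero, padicValInt.mul hq hp] at h2
  have h3 := hvq 1
  rw [pow_one] at h3
  rw [h2, h3, zero_add]

lemma val_prod {ι : Type*} (s : Finset ι) (f g : ι → ℤ) {l : ℕ} (hl : l.Prime)
    (hf : ∀ i ∈ s, f i ≠ 0) (hg : ∀ i ∈ s, g i ≠ 0)
    (h : ∀ i ∈ s, padicValInt l (f i) = padicValInt l (g i)) (c : ℤ) (hc : c ≠ 0) :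
    padicValInt l (c * ∏ i ∈ s, f i) = padicValInt l (c * ∏ i ∈ s, g i) := by
  classical
  have hlp : Fact l.Prime := ⟨hl⟩
  rw [padicValInt.mul hc (prod_ne_zero_iff.2 hf), padicValInt.mul hc (prod_ne_zero_iff.2 hg)]
  congr 1
  induction s using Finset.induction_on with
  | empty => rfl
  | insert i s hi ih =>
    rw [prod_insert hi, prod_insert hi, padicValInt.mul (hf i (mem_insert_self i s))
      (prod_ne_zero_iff.2 fun j hj => hf j (mem_insert_of_mem hj)),
      padicValInt.mul (hg i (mem_insert_self i s))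
      (prod_ne_zero_iff.2 fun j hj => hg j (mem_insert_of_mem hj)), h i (mem_insert_self i s),
      ih (fun j hj => hf j (mem_insert_of_mem hj)) (fun j hj => hg j (mem_insert_of_mem hj))
        fun j hj => h j (mem_insert_of_mem hj)]

end fin

end Pool.Agent.Y194.UF
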