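import Pool.Agent.Y194.UF.Cnt

/-!
# Twisted Euler products: the number of the characters with a large order of vanishing
-/

set_option autoImplicit false

open PowerSeries

namespace Pool.Agent.Y194.UF

open Finset
open Pool.Agent.Y194.UP
open Pool.Agent.W343.BSD

section nv

lemma nv_ne (P : Polynomial ℤ) {Q : ℕ} (hQ : Q ≠ 0) :
    nv P Q ≠ 0 ↔ (P.map (Int.castRingHom ℚ)).eval ((Q : ℚ)⁻¹) ≠ 0 := by
  have hQQ : (Q : ℚ) ≠ 0 := by exact_mod_cast hQ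
  have h1 := cast_nv (F := ℚ) P hQQ
  constructor
  · intro h h2
    rw [h2, mul_zero] at h1
    exact h (by exact_mod_cast h1)
  · intro h h2
    rw [h2, Int.cast_zero] at h1
    exact (mul_ne_zero (pow_ne_zero _ hQQ) h) h1.symm

lemma nv_mul {A B : Polynomial ℤ} (hA : A ≠ 0) (hB : B ≠ 0) {Q : ℕ} (hQ : Q ≠ 0) :
    nv (A * B) Q = nv A Q * nv B Q := by
  have hQQ : (Q : ℚ) ≠ 0 := by exact_mod_cast hQ
  have h : (nv (A * B) Q : ℚ) = nv A Q * nv B Q := by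
    rw [cast_nv _ hQQ, cast_nv _ hQQ, cast_nv _ hQQ, Polynomial.natDegree_mul hA hB,
      Polynomial.map_mul, Polynomial.eval_mul, pow_add]
    ring
  exact_mod_cast h

lemma nv_one (Q : ℕ) : nv 1 Q = 1 := by
  unfold nv
  simp

lemma tw_one_eq (P : Polynomial ℤ) (n : ℕ) : tw P (1 : ℤ) n = Polynomial.expand ℤ n P := by
  unfold tw
  rw [Polynomial.expand_eq_comp_X_pow, map_one, one_mul, RingHom.eq_intCast' (Int.castRingHom ℤ)]
  congr 1
  exact Polynomial.map_id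

lemma nv_tw (P : Polynomial ℤ) (n : ℕ) {Q : ℕ} (hQ : Q ≠ 0) :
    nv (tw P (1 : ℤ) n) Q = nv P (Q ^ n) := by
  have hQQ : (Q : ℚ) ≠ 0 := by exact_mod_cast hQ
  have hQn : ((Q ^ n : ℕ) : ℚ) ≠ 0 := by
    push_cast
    exact pow_ne_zero _ hQQ
  have h : (nv (tw P (1 : ℤ) n) Q : ℚ) = nv P (Q ^ n) := by
    rw [cast_nv _ hQQ, cast_nv _ hQn, tw_one_eq, Polynomial.natDegree_expand,
      Polynomial.map_expand, Polynomial.expand_eval]
    push_cast
    rw [inv_pow, ← pow_mul, mul_comm n]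
  exact_mod_cast h

lemma nv_prod {ι : Type*} (s : Finset ι) (f : ι → Polynomial ℤ) (hf : ∀ i ∈ s, f i ≠ 0) {Q : ℕ}
    (hQ : Q ≠ 0) : nv (∏ i ∈ s, f i) Q = ∏ i ∈ s, nv (f i) Q := by
  classical
  induction s using Finset.induction_on with
  | empty => rw [prod_empty, prod_empty, nv_one]
  | insert i s hi ih =>
    rw [prod_insert hi, prod_insert hi, nv_mul (hf i (mem_insert_self i s))
      (prod_ne_zero_iff.2 fun j hj => hf j (mem_insert_of_mem hj)) hQ,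
      ih fun j hj => hf j (mem_insert_of_mem hj)]

end nv

section general
variable {J : Type*} {d : J → ℕ} {P : J → Polynomial ℤ} {G : Type*} [CommGroup G]

open Classical in
/-- the L-series `∏_{v ∉ S} P_v(χ(fr v) T^{d v})⁻¹` -/
noncomputable def LS (d : J → ℕ) (P : J → Polynomial ℤ) (S : Finset J) (fr : J → G)
    (χ : G →* ℂ) : PowerSeries ℂ :=
  eulerProd d (fun v => if v ∈ S then 1 else fac (P v) (χ (fr v)) (d v))

open Classical in
/-- the values `z_v` -/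
noncomputable def zz (S : Finset J) (fr : J → G) (v : J) : MonoidAlgebra ℤ G :=
  if v ∈ S then 0 else MonoidAlgebra.of ℤ G (fr v)

lemma evA_zz (S : Finset J) (fr : J → G) (v : J) (χ : G →* ℂ) [Decidable (v ∈ S)] :
    evA χ (zz S fr v) = if v ∈ S then 0 else χ (fr v) := by
  unfold zz
  by_cases h : v ∈ S
  · rw [if_pos h, if_pos h, map_zero]
  · rw [if_neg h, if_neg h, MonoidAlgebra.of_apply, evA_single, map_one, one_mul]

lemma augA_zz (S : Finset J) (fr : J → G) (v : J) [Decidable (v ∈ S)] :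
    augA ℤ G (zz S fr v) = if v ∈ S then 0 else 1 := by
  unfold zz
  by_cases h : v ∈ S
  · rw [if_pos h, if_pos h, map_zero]
  · rw [if_neg h, if_neg h, MonoidAlgebra.of_apply, augA_single]

lemma map_ev (hfin : ∀ n, {v | d v ≤ n}.Finite) (hd : ∀ v, 0 < d v)
    (hP : ∀ v, (P v).coeff 0 = 1) (S : Finset J) (fr : J → G) (χ : G →* ℂ) :
    PowerSeries.map (evA χ : MonoidAlgebra ℤ G →ₐ[ℤ] ℂ).toRingHom (Lser d P (zz S fr)) =
      LS d P S fr χ := by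
  classical
  rw [map_Lser hfin hd hP]
  unfold Lser LS
  congr 1
  funext v
  have h1 : (evA χ : MonoidAlgebra ℤ G →ₐ[ℤ] ℂ).toRingHom (zz S fr v) =
      if v ∈ S then 0 else χ (fr v) := evA_zz S fr v χ
  beta_reduce
  rw [h1]
  by_cases h : v ∈ S
  · rw [if_pos h, if_pos h, fac_zero (P v) (hP v) (hd v)]
  · rw [if_neg h, if_neg h]

lemma map_aug (hfin : ∀ n, {v | d v ≤ n}.Finite) (hd : ∀ v, 0 < d v)
    (hP : ∀ v, (P v).coeff 0 = 1) (S : Finset J) (fr : J → G) :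
    PowerSeries.map (augA ℤ G : MonoidAlgebra ℤ G →ₐ[ℤ] ℤ).toRingHom (Lser d P (zz S fr)) =
      Lser d P (fun _ => (1 : ℤ)) * ((∏ v ∈ S, tw (P v) (1 : ℤ) (d v) : Polynomial ℤ) :
        PowerSeries ℤ) := by
  classical
  rw [map_Lser hfin hd hP]
  let H : J → PowerSeries ℤ := fun v => if v ∈ S then (tw (P v) (1 : ℤ) (d v) : PowerSeries ℤ)
    else 1
  have hH : ∀ v, (X : PowerSeries ℤ) ^ d v ∣ H v - 1 := by
    intro v
    show _ ∣ (if v ∈ S then _ else 1) - 1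
    split_ifs
    · exact coe_tw_dvd (P v) (hP v) 1 (d v)
    · rw [sub_self]
      exact dvd_zero _
  have h2 : eulerProd d H = ((∏ v ∈ S, tw (P v) (1 : ℤ) (d v) : Polynomial ℤ) :
        PowerSeries ℤ) := by
    rw [eulerProd_of_finset hfin hH S (fun v hv => if_neg hv)]
    have h3 : ((∏ v ∈ S, tw (P v) (1 : ℤ) (d v) : Polynomial ℤ) : PowerSeries ℤ) =
        ∏ v ∈ S, (tw (P v) (1 : ℤ) (d v) : PowerSeries ℤ) :=
      map_prod (Polynomial.coeToPowerSeries.ringHom (R := ℤ)) _ S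
    rw [h3]
    exact Finset.prod_congr rfl fun v hv => if_pos hv
  rw [← h2]
  unfold Lser
  rw [← eulerProd_mul hfin (fun v => fac_dvd (P v) (hP v) _ (hd v)) hH]
  congr 1
  funext v
  have h1 : (augA ℤ G : MonoidAlgebra ℤ G →ₐ[ℤ] ℤ).toRingHom (zz S fr v) =
      if v ∈ S then 0 else 1 := augA_zz S fr v
  beta_reduce
  rw [h1]
  show _ = fac (P v) 1 (d v) * (if v ∈ S then _ else 1)
  by_cases h : v ∈ S
  · rw [if_pos h, if_pos h, fac_zero (P v) (hP v) (hd v), mul_comm,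
      mul_fac (P v) (hP v) 1 (hd v)]
  · rw [if_neg h, if_neg h, mul_one]

lemma const_LS (hfin : ∀ n, {v | d v ≤ n}.Finite) (hd : ∀ v, 0 < d v)
    (hP : ∀ v, (P v).coeff 0 = 1) (S : Finset J) (fr : J → G) (χ : G →* ℂ) :
    constantCoeff (LS d P S fr χ) = 1 := by
  classical
  have h1 := eulerProd_mod hfin (R := ℂ)
    (f := fun v => if v ∈ S then 1 else fac (P v) (χ (fr v)) (d v)) (fun v => by
      split_ifs
      · rw [sub_self]
        exact dvd_zero _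
      · exact fac_dvd (P v) (hP v) _ (hd v)) 0 ∅ (fun v hv => by
      have := hd v
      omega)
  rw [prod_empty] at h1
  have h2 := X_pow_dvd_iff.1 h1 0 (by omega)
  rw [map_sub, sub_eq_zero, coeff_zero_eq_constantCoeff] at h2
  unfold LS
  rw [h2, map_one]

lemma prep (hd : ∀ v, 0 < d v) {Q : ℕ} (hQ0 : Q ≠ 0) {U : Polynomial ℤ} (hU : nv U Q ≠ 0)
    (S : Finset J) (hS : ∀ v ∈ S, nv (P v) (Q ^ d v) ≠ 0) :
    nv (U * ∏ v ∈ S, tw (P v) (1 : ℤ) (d v)) Q = nv U Q * ∏ v ∈ S, nv (P v) (Q ^ d v) := by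
  have hU0 : U ≠ 0 := by
    rintro rfl
    apply hU
    unfold nv
    simp
  have htw : ∀ v ∈ S, tw (P v) (1 : ℤ) (d v) ≠ 0 := by
    intro v hv h
    apply hS v hv
    rw [← nv_tw _ _ hQ0, h]
    unfold nv
    simp
  rw [nv_mul hU0 (prod_ne_zero_iff.2 htw) hQ0, nv_prod S _ htw hQ0]
  congr 1
  exact prod_congr rfl fun v _ => nv_tw _ _ hQ0

lemma pol_ne (hfin : ∀ n, {v | d v ≤ n}.Finite) (hd : ∀ v, 0 < d v)
    (hP : ∀ v, (P v).coeff 0 = 1) (S : Finset J) (fr : J → G)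
    (Pol : (G →* ℂ) → Polynomial ℂ)
    (hPol : ∀ χ, (Pol χ : PowerSeries ℂ) = LS d P S fr χ) (χ : G →* ℂ) : Pol χ ≠ 0 := by
  intro h
  have h2 := const_LS hfin hd hP S fr χ
  rw [← hPol, h] at h2
  simp at h2

/-- **the number of the characters `χ` for which the order of vanishing of the twisted L-series is at
most the order of vanishing of the L-series** -/
theorem main [Finite G] (hfin : ∀ n, {v | d v ≤ n}.Finite) (hd : ∀ v, 0 < d v)
    (hP : ∀ v, (P v).coeff 0 = 1) {l : ℕ} (hl : l.Prime) (hG : IsPGroup l G) {Q : ℕ}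
    (hQ : ¬ l ∣ Q) {ρ : ℕ} {U : Polynomial ℤ}
    (hL : Lser d P (fun _ => (1 : ℤ)) =
      (((1 - Polynomial.C (Q : ℤ) * Polynomial.X) ^ ρ * U : Polynomial ℤ) : PowerSeries ℤ))
    (hU : nv U Q ≠ 0) (S : Finset J) (hS : ∀ v ∈ S, nv (P v) (Q ^ d v) ≠ 0) (fr : J → G)
    (Pol : (G →* ℂ) → Polynomial ℂ)
    (hPol : ∀ χ, (Pol χ : PowerSeries ℂ) = LS d P S fr χ) :
    Nat.card G ≤ l ^ padicValInt l (nv U Q * ∏ v ∈ S, nv (P v) (Q ^ d v)) *
      Nat.card {χ : G →* ℂ // (Pol χ).rootMultiplicity ((Q : ℂ)⁻¹) ≤ ρ} := by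
  have hQ0 : Q ≠ 0 := by
    rintro rfl
    exact hQ (dvd_zero _)
  have h1 := prep hd hQ0 hU S hS
  rw [← h1]
  refine count hl hG hQ (Lser d P (zz S fr)) Pol (fun χ => ?_)
    (pol_ne hfin hd hP S fr Pol hPol)
    ((1 - Polynomial.C (Q : ℤ) * Polynomial.X) ^ ρ * (U * ∏ v ∈ S, tw (P v) (1 : ℤ) (d v))) ?_ ρ _
    rfl ?_
  · rw [hPol, map_ev hfin hd hP]
  · rw [map_aug hfin hd hP, hL, ← Polynomial.coe_mul, mul_assoc]
  · rw [h1]
    exact mul_ne_zero hU (prod_ne_zero_iff.2 hS)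

/-- **the number of the layers with a large order of vanishing** -/
theorem mainLayers [Finite G] (hfin : ∀ n, {v | d v ≤ n}.Finite) (hd : ∀ v, 0 < d v)
    (hP : ∀ v, (P v).coeff 0 = 1) {l : ℕ} (hl : l.Prime) (hG : IsCyclic G) {Q : ℕ}
    (hQ : ¬ l ∣ Q) {ρ : ℕ} {U : Polynomial ℤ}
    (hL : Lser d P (fun _ => (1 : ℤ)) =
      (((1 - Polynomial.C (Q : ℤ) * Polynomial.X) ^ ρ * U : Polynomial ℤ) : PowerSeries ℤ))
    (hU : nv U Q ≠ 0) (S : Finset J) (hS : ∀ v ∈ S, nv (P v) (Q ^ d v) ≠ 0) (fr : J → G)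
    (Pol : (G →* ℂ) → Polynomial ℂ)
    (hPol : ∀ χ, (Pol χ : PowerSeries ℂ) = LS d P S fr χ)
    (I : Finset ℕ) (hI : ∀ i ∈ I, 1 ≤ i ∧ ∃ χ : G →* ℂ, orderOf χ = l ^ i ∧
      ¬ (Pol χ).rootMultiplicity ((Q : ℂ)⁻¹) ≤ ρ) :
    I.card ≤ padicValInt l (nv U Q * ∏ v ∈ S, nv (P v) (Q ^ d v)) := by
  have hQ0 : Q ≠ 0 := by
    rintro rfl
    exact hQ (dvd_zero _)
  have h1 := prep hd hQ0 hU S hS
  rw [← h1]
  refine layers hl hG hQ (Lser d P (zz S fr)) Pol (fun χ => ?_)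
    (pol_ne hfin hd hP S fr Pol hPol)
    ((1 - Polynomial.C (Q : ℤ) * Polynomial.X) ^ ρ * (U * ∏ v ∈ S, tw (P v) (1 : ℤ) (d v))) ?_ ρ _
    rfl ?_ I hI
  · rw [hPol, map_ev hfin hd hP]
  · rw [map_aug hfin hd hP, hL, ← Polynomial.coe_mul, mul_assoc]
  · rw [h1]
    exact mul_ne_zero hU (prod_ne_zero_iff.2 hS)

end general

end Pool.Agent.Y194.UF
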