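import Pool.Agent.W343.BSD.Euler
import Pool.Agent.Y194.UP.Loc2
import Pool.Agent.Y194.UP.Dual

/-!
# Euler products with coefficients in a group ring
-/

set_option autoImplicit false

open PowerSeries

namespace Pool.Agent.Y194.UF

open Pool.Agent.W343.BSD
open Pool.Agent.Y194.UP (evA augA)

section tw
variable {R R' : Type*} [CommRing R] [CommRing R']

/-- `p(z T^n)` -/
noncomputable def tw (p : Polynomial ℤ) (z : R) (n : ℕ) : Polynomial R :=
  (p.map (Int.castRingHom R)).comp (Polynomial.C z * Polynomial.X ^ n)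

lemma map_tw (φ : R →+* R') (p : Polynomial ℤ) (z : R) (n : ℕ) :
    (tw p z n).map φ = tw p (φ z) n := by
  unfold tw
  rw [Polynomial.map_comp, Polynomial.map_map, Polynomial.map_mul, Polynomial.map_pow,
    Polynomial.map_C, Polynomial.map_X, RingHom.ext_int (φ.comp (Int.castRingHom R))
      (Int.castRingHom R')]

lemma tw_zero (p : Polynomial ℤ) (h : p.coeff 0 = 1) (n : ℕ) : tw p (0 : R) n = 1 := by
  unfold tw
  rw [map_zero, zero_mul, Polynomial.comp_zero, ← Polynomial.coeff_zero_eq_eval_zero,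
    Polynomial.coeff_map, h, map_one, map_one]

lemma tw_dvd (p : Polynomial ℤ) (h : p.coeff 0 = 1) (z : R) (n : ℕ) :
    (Polynomial.X : Polynomial R) ^ n ∣ tw p z n - 1 := by
  have h1 : tw p z n = ((p.map (Int.castRingHom R)).divX.comp
      (Polynomial.C z * Polynomial.X ^ n)) * (Polynomial.C z * Polynomial.X ^ n) + 1 := by
    unfold tw
    conv_lhs => rw [← Polynomial.divX_mul_X_add (p.map (Int.castRingHom R))]
    rw [Polynomial.add_comp, Polynomial.mul_comp, Polynomial.X_comp, Polynomial.C_comp,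
      Polynomial.coeff_map, h, map_one, map_one]
  rw [h1, add_sub_cancel_right, ← mul_assoc]
  exact dvd_mul_left _ _

lemma coe_tw_dvd (p : Polynomial ℤ) (h : p.coeff 0 = 1) (z : R) (n : ℕ) :
    (X : PowerSeries R) ^ n ∣ (tw p z n : PowerSeries R) - 1 := by
  obtain ⟨g, hg⟩ := tw_dvd p h z n
  refine ⟨(g : PowerSeries R), ?_⟩
  have := congrArg (fun f : Polynomial R => (f : PowerSeries R)) hg
  simpa using this

lemma const_tw (p : Polynomial ℤ) (h : p.coeff 0 = 1) (z : R) {n : ℕ} (hn : 0 < n) :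
    constantCoeff (tw p z n : PowerSeries R) = 1 := by
  have h1 := X_pow_dvd_iff.1 (coe_tw_dvd p h z n) 0 hn
  rw [map_sub, sub_eq_zero, coeff_zero_eq_constantCoeff] at h1
  rw [h1, map_one]

/-- `p(z T^n)⁻¹` -/
noncomputable def fac (p : Polynomial ℤ) (z : R) (n : ℕ) : PowerSeries R :=
  invOfUnit (tw p z n : PowerSeries R) 1

lemma mul_fac (p : Polynomial ℤ) (h : p.coeff 0 = 1) (z : R) {n : ℕ} (hn : 0 < n) :
    (tw p z n : PowerSeries R) * fac p z n = 1 :=
  mul_invOfUnit _ _ (by rw [const_tw p h z hn, Units.val_one])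

lemma fac_dvd (p : Polynomial ℤ) (h : p.coeff 0 = 1) (z : R) {n : ℕ} (hn : 0 < n) :
    (X : PowerSeries R) ^ n ∣ fac p z n - 1 := by
  have h1 : fac p z n - 1 = -(fac p z n * ((tw p z n : PowerSeries R) - 1)) := by
    linear_combination mul_fac p h z hn
  rw [h1]
  exact (dvd_neg).2 ((coe_tw_dvd p h z n).mul_left _)

lemma fac_unique {p : Polynomial ℤ} (h : p.coeff 0 = 1) {z : R} {n : ℕ} (hn : 0 < n)
    {f : PowerSeries R} (hf : (tw p z n : PowerSeries R) * f = 1) : f = fac p z n := by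
  have h1 := mul_fac p h z hn
  linear_combination fac p z n * hf - f * h1

lemma fac_zero (p : Polynomial ℤ) (h : p.coeff 0 = 1) {n : ℕ} (hn : 0 < n) :
    fac p (0 : R) n = 1 := by
  symm
  apply fac_unique h hn
  rw [tw_zero p h, mul_one, Polynomial.coe_one]

lemma map_fac (φ : R →+* R') (p : Polynomial ℤ) (h : p.coeff 0 = 1) (z : R) {n : ℕ}
    (hn : 0 < n) : PowerSeries.map φ (fac p z n) = fac p (φ z) n := by
  apply fac_unique h hn
  have h1 := congrArg (PowerSeries.map φ) (mul_fac p h z hn)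
  rw [map_mul, map_one] at h1
  rw [← h1, ← map_tw, Polynomial.polynomial_map_coe]

variable {J : Type*} (d : J → ℕ) (P : J → Polynomial ℤ)

/-- `∏_v P_v(z_v T^{d v})⁻¹` -/
noncomputable def Lser (z : J → R) : PowerSeries R := eulerProd d (fun v => fac (P v) (z v) (d v))

variable {d P}

lemma map_Lser (hfin : ∀ n, {v | d v ≤ n}.Finite) (hd : ∀ v, 0 < d v)
    (hP : ∀ v, (P v).coeff 0 = 1) (φ : R →+* R') (z : J → R) :
    PowerSeries.map φ (Lser d P z) = Lser d P (fun v => φ (z v)) := by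
  unfold Lser
  rw [map_eulerProd hfin]
  congr 1
  funext v
  exact map_fac φ (P v) (hP v) (z v) (hd v)

end tw

section taylor
variable {F : Type*} [Field F]

/-- the `ρ`-th Taylor coefficient at `1/Q` -/
lemma sum_eq (f : Polynomial F) {Q : ℕ} (hQ : (Q : F) ≠ 0) {B ρ : ℕ} (hB : f.natDegree ≤ B)
    (hρ : ρ ≤ B) :
    ∑ n ∈ Finset.range (B + 1), ((n.choose ρ * Q ^ (B - n) : ℕ) : F) * f.coeff n =
      (Q : F) ^ (B - ρ) * (Polynomial.taylor ((Q : F)⁻¹) f).coeff ρ := by
  rw [Polynomial.taylor_coeff, Polynomial.hasseDeriv_apply, Polynomial.eval_sum,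
    Polynomial.sum_over_range' _ _ (B + 1) (by omega), Finset.mul_sum]
  · refine Finset.sum_congr rfl fun n hn => ?_
    rw [Finset.mem_range] at hn
    rw [Polynomial.eval_monomial]
    by_cases h : n < ρ
    · rw [Nat.choose_eq_zero_of_lt h]
      simp
    · push Not at h
      have h1 : (Q : F) ^ (B - ρ) * ((Q : F)⁻¹) ^ (n - ρ) = (Q : F) ^ (B - n) := by
        have h2 : B - ρ = (B - n) + (n - ρ) := by omega
        rw [h2, pow_add, mul_assoc, ← mul_pow, mul_inv_cancel₀ hQ, one_pow, mul_one]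
      push_cast
      rw [← h1]
      ring
  · intro n
    rw [mul_zero, Polynomial.monomial_zero_right, Polynomial.eval_zero]

lemma taylor_zero_of_mult (f : Polynomial F) (hf : f ≠ 0) (t : F) {ρ : ℕ}
    (h : ρ < f.rootMultiplicity t) : (Polynomial.taylor t f).coeff ρ = 0 := by
  have h1 : (Polynomial.X - Polynomial.C t) ^ (ρ + 1) ∣ f :=
    (Polynomial.le_rootMultiplicity_iff hf).1 h
  obtain ⟨g, hg⟩ := h1
  have h2 : Polynomial.taylor t f = Polynomial.X ^ (ρ + 1) * Polynomial.taylor t g := by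
    rw [hg, Polynomial.taylor_mul, Polynomial.taylor_pow, map_sub, Polynomial.taylor_X,
      Polynomial.taylor_C, add_sub_cancel_right]
  rw [h2, mul_comm, Polynomial.coeff_mul_X_pow', if_neg (by omega)]

/-- `Q^(deg P) P(1/Q)` -/
def nv (P : Polynomial ℤ) (Q : ℕ) : ℤ :=
  ∑ n ∈ Finset.range (P.natDegree + 1), P.coeff n * (Q : ℤ) ^ (P.natDegree - n)

lemma cast_nv (P : Polynomial ℤ) {Q : ℕ} (hQ : (Q : F) ≠ 0) :
    (nv P Q : F) = (Q : F) ^ P.natDegree *
      (P.map (Int.castRingHom F)).eval ((Q : F)⁻¹) := by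
  have h1 : (P.map (Int.castRingHom F)).natDegree ≤ P.natDegree := Polynomial.natDegree_map_le
  have h2 := sum_eq (P.map (Int.castRingHom F)) hQ h1 (Nat.zero_le _)
  rw [Nat.sub_zero, Polynomial.taylor_coeff_zero] at h2
  rw [← h2]
  unfold nv
  push_cast
  refine Finset.sum_congr rfl fun n _ => ?_
  rw [Polynomial.coeff_map, eq_intCast, Nat.choose_zero_right]
  push_cast
  ring

end taylor

end Pool.Agent.Y194.UF
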